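import Mathlib

set_option autoImplicit false

namespace Pool.Agent.Helper190.NJ2

open MvPolynomial Matrix

/-- The Jacobian matrix: row `i` is the gradient of `s i`. -/
noncomputable def jac {n : ℕ} (s : Fin n → MvPolynomial (Fin n) ℝ) :
    Matrix (Fin n) (Fin n) (MvPolynomial (Fin n) ℝ) :=
  Matrix.of fun i j => pderiv j (s i)

/-- The matrix `C`: first column `-s i`, ones at the places `(i, i+1)`, zeros elsewhere. -/
noncomputable def cmat {n : ℕ} (s : Fin n → MvPolynomial (Fin n) ℝ) :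
    Matrix (Fin n) (Fin n) (MvPolynomial (Fin n) ℝ) :=
  Matrix.of fun i j => if (j : ℕ) = 0 then - s i else if (j : ℕ) = (i : ℕ) + 1 then 1 else 0

def Admissible {n : ℕ} (s : Fin n → MvPolynomial (Fin n) ℝ) : Prop :=
  AlgebraicIndependent ℝ s ∧ (∀ k : Fin n, (s k).IsHomogeneous ((k : ℕ) + 1)) ∧
    ∀ i j, (jac s).det ∣ ((jac s).adjugate * cmat s * jac s) i j

noncomputable def lf (A : Matrix (Fin 2) (Fin 2) ℝ) (i : Fin 2) : MvPolynomial (Fin 2) ℝ :=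
  ∑ j, C (A i j) * X j

/-- `(t+a)(t+b)`, `(t+a)^2+b^2`, `t^2+at+b^2`, `t^2+at-b^2`. -/
def Fam2 (a b : MvPolynomial (Fin 2) ℝ) (s : Fin 2 → MvPolynomial (Fin 2) ℝ) : Prop :=
  s = ![a + b, a * b] ∨ s = ![2 * a, a ^ 2 + b ^ 2] ∨ s = ![a, b ^ 2] ∨ s = ![a, -(b ^ 2)]

def Adm' (s : Fin 2 → MvPolynomial (Fin 2) ℝ) : Prop :=
  (jac s).det ≠ 0 ∧ (∀ k : Fin 2, (s k).IsHomogeneous ((k : ℕ) + 1)) ∧
    ∃ L : Matrix (Fin 2) (Fin 2) (MvPolynomial (Fin 2) ℝ),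
      (∀ i j, (L i j).IsHomogeneous 1) ∧ jac s * L = cmat s * jac s

end Pool.Agent.Helper190.NJ2
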