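import Pool.Agent.Helper190.NJ2.Defs
import Pool.Agent.Helper190.NJ2.P_hcomp_mul
import Pool.Agent.Helper190.NJ2.P_det_of_alg

set_option autoImplicit false

namespace Pool.Agent.Helper190.NJ2
open MvPolynomial Matrix


theorem adm_to2 (s : Fin 2 → MvPolynomial (Fin 2) ℝ) (h : Admissible s) : Adm' s := by
  classical
  have hD := det_of_alg s h.1
  refine ⟨hD, h.2.1, ?_⟩
  choose l hl using h.2.2
  have e1 : (jac s).adjugate * cmat s * jac s = (jac s).det • (Matrix.of l) := by
    ext1 i j
    rw [hl i j]
    rfl
  have e2 : (jac s).det • (cmat s * jac s) = (jac s).det • (jac s * Matrix.of l) := by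
    calc (jac s).det • (cmat s * jac s) = (jac s * (jac s).adjugate) * (cmat s * jac s) := by
          rw [Matrix.mul_adjugate, Matrix.smul_mul, Matrix.one_mul]
      _ = jac s * ((jac s).adjugate * cmat s * jac s) := by
          simp only [Matrix.mul_assoc]
      _ = _ := by rw [e1, Matrix.mul_smul]
  have e3 : ∀ i j, (cmat s * jac s) i j = (jac s * Matrix.of l) i j := by
    intro i j
    have := congrFun (congrFun e2 i) j
    simp only [Matrix.smul_apply, smul_eq_mul] at this
    exact mul_left_cancel₀ hD this
  refine ⟨Matrix.of fun i j => homogeneousComponent 1 (l i j), ?_, ?_⟩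
  · intro i j
    exact homogeneousComponent_isHomogeneous 1 (l i j)
  · have hpd : ∀ i m : Fin 2, (pderiv m (s i)).IsHomogeneous (i : ℕ) := by
      intro i m
      have := (h.2.1 i).pderiv (i := m)
      simpa using this
    ext1 i j
    have hhom : ((cmat s * jac s) i j).IsHomogeneous ((i : ℕ) + 1) := by
      rw [Matrix.mul_apply]
      refine IsHomogeneous.sum _ _ _ fun m _ => ?_
      simp only [cmat, jac, Matrix.of_apply]
      split_ifs with h0 h1
      · have : ((i : ℕ) + 1) = ((i : ℕ) + 1) + (m : ℕ) := by omega
        rw [this]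
        exact (h.2.1 i).neg.mul (hpd m j)
      · rw [one_mul, ← h1]
        exact hpd m j
      · rw [zero_mul]
        exact isHomogeneous_zero _ _ _
    have h4 : homogeneousComponent ((i : ℕ) + 1) ((cmat s * jac s) i j) = (cmat s * jac s) i j := by
      rw [homogeneousComponent_of_mem ((mem_homogeneousSubmodule _ _).mpr hhom), if_pos rfl]
    rw [← h4, e3, Matrix.mul_apply, Matrix.mul_apply, map_sum]
    refine Finset.sum_congr rfl fun m _ => ?_
    rw [hcomp_mul (i : ℕ) _ _ (by exact hpd i m)]
    rfl

end Pool.Agent.Helper190.NJ2
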