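import Pool.Agent.Helper190.NJ2.Defs

set_option autoImplicit false

namespace Pool.Agent.Helper190.NJ2
open MvPolynomial Matrix


theorem class1_hom (p : MvPolynomial (Fin 1) ℝ) (hp : p.IsHomogeneous 1) :
    p = C (coeff (Finsupp.single 0 1) p) * X 0 := by
  ext m
  rw [coeff_C_mul, coeff_X]
  by_cases h : Finsupp.single 0 1 = m
  · rw [if_pos h, h, mul_one]
  · rw [if_neg h, mul_zero]
    apply hp.coeff_eq_zero
    intro hd
    apply h
    refine Finsupp.ext fun i => ?_
    have hi : i = 0 := Subsingleton.elim _ _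
    subst hi
    have h2 : m.degree = m 0 := by
      rw [Finsupp.degree_eq_sum]
      simp
    rw [← h2, hd]
    simp

theorem class1_alg (a : ℝ) (ha : a ≠ 0) :
    AlgebraicIndependent ℝ (![C a * X 0] : Fin 1 → MvPolynomial (Fin 1) ℝ) := by
  have hinv : Function.LeftInverse
      (aeval (fun _ : Fin 1 => (C a⁻¹ * X 0 : MvPolynomial (Fin 1) ℝ)))
      (aeval (R := ℝ) (![C a * X 0] : Fin 1 → MvPolynomial (Fin 1) ℝ)) := by
    intro p
    have h : ((aeval (fun _ : Fin 1 => (C a⁻¹ * X 0 : MvPolynomial (Fin 1) ℝ))).comp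
        (aeval (R := ℝ) (![C a * X 0] : Fin 1 → MvPolynomial (Fin 1) ℝ)))
        = AlgHom.id ℝ (MvPolynomial (Fin 1) ℝ) := by
      apply MvPolynomial.algHom_ext
      intro i
      have hi : i = 0 := Subsingleton.elim _ _
      subst hi
      rw [AlgHom.comp_apply, aeval_X]
      simp only [Matrix.cons_val_zero, map_mul, aeval_X, AlgHom.id_apply]
      rw [← MvPolynomial.algebraMap_eq, AlgHom.commutes, MvPolynomial.algebraMap_eq, ← mul_assoc,
        ← C_mul, mul_inv_cancel₀ ha, C_1, one_mul]
    exact DFunLike.congr_fun h p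
  exact hinv.injective

theorem class1 (s : Fin 1 → MvPolynomial (Fin 1) ℝ) :
    Admissible s ↔ ∃ a : ℝ, a ≠ 0 ∧ s = ![C a * X 0] := by
  constructor
  · rintro ⟨h1, h2, _⟩
    have h3 := class1_hom (s 0) (by simpa using h2 0)
    refine ⟨coeff (Finsupp.single 0 1) (s 0), ?_, ?_⟩
    · intro h0
      rw [h0, C_0, zero_mul] at h3
      exact h1.ne_zero 0 h3
    · ext1 i
      have hi : i = 0 := Subsingleton.elim _ _
      subst hi
      simpa using h3
  · rintro ⟨a, ha, rfl⟩
    refine ⟨class1_alg a ha, ?_, ?_⟩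
    · intro k
      have hk : k = 0 := Subsingleton.elim _ _
      subst hk
      simpa using isHomogeneous_C_mul_X a (0 : Fin 1)
    · intro i j
      have hi : i = 0 := Subsingleton.elim _ _
      have hj : j = 0 := Subsingleton.elim _ _
      subst hi; subst hj
      rw [Matrix.adjugate_fin_one, one_mul, Matrix.det_fin_one, Matrix.mul_apply]
      simp

end Pool.Agent.Helper190.NJ2
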