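import Pool.Agent.Helper190.NJ2.Defs
import Pool.Agent.Helper190.NJ2.P_ext_lin2

set_option autoImplicit false

namespace Pool.Agent.Helper190.NJ2
open MvPolynomial Matrix


theorem eqs2_jac (s : Fin 2 → MvPolynomial (Fin 2) ℝ) (l0 l1 a b c : ℝ)
    (h0 : s 0 = C l0 * X 0 + C l1 * X 1)
    (h1 : s 1 = C a * X 0 ^ 2 + C b * (X 0 * X 1) + C c * X 1 ^ 2) (v : Fin 2 → ℝ) :
    eval v (jac s 0 0) = l0 ∧ eval v (jac s 0 1) = l1 ∧
    eval v (jac s 1 0) = 2 * a * v 0 + b * v 1 ∧ eval v (jac s 1 1) = b * v 0 + 2 * c * v 1 := by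
  refine ⟨?_, ?_, ?_, ?_⟩
  · simp [jac, h0, pderiv_X, Pi.single_apply]
  · simp [jac, h0, pderiv_X, Pi.single_apply]
  · simp [jac, h1, pderiv_X, Pi.single_apply, Derivation.leibniz, Derivation.leibniz_pow]
    ring
  · simp [jac, h1, pderiv_X, Pi.single_apply, Derivation.leibniz, Derivation.leibniz_pow]
    ring

theorem eqs2 (s : Fin 2 → MvPolynomial (Fin 2) ℝ) (h : Adm' s) (l0 l1 a b c : ℝ)
    (h0 : s 0 = C l0 * X 0 + C l1 * X 1)
    (h1 : s 1 = C a * X 0 ^ 2 + C b * (X 0 * X 1) + C c * X 1 ^ 2) :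
    (∃ m : Fin 4 → Fin 2 → ℝ, ∀ x y : ℝ,
      l0 * (m 0 0 * x + m 0 1 * y) + l1 * (m 2 0 * x + m 2 1 * y) =
        2 * a * x + b * y - (l0 * x + l1 * y) * l0 ∧
      l0 * (m 1 0 * x + m 1 1 * y) + l1 * (m 3 0 * x + m 3 1 * y) =
        b * x + 2 * c * y - (l0 * x + l1 * y) * l1 ∧
      (2 * a * x + b * y) * (m 0 0 * x + m 0 1 * y) + (b * x + 2 * c * y) * (m 2 0 * x + m 2 1 * y) =
        - (a * x ^ 2 + b * (x * y) + c * y ^ 2) * l0 ∧
      (2 * a * x + b * y) * (m 1 0 * x + m 1 1 * y) + (b * x + 2 * c * y) * (m 3 0 * x + m 3 1 * y) =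
        - (a * x ^ 2 + b * (x * y) + c * y ^ 2) * l1) ∧
    ∃ x y : ℝ, l0 * (b * x + 2 * c * y) - l1 * (2 * a * x + b * y) ≠ 0 := by
  obtain ⟨hdet, hhom, L, hLh, hL⟩ := h
  constructor
  · obtain ⟨p0, p1, e00⟩ := ext_lin2 (L 0 0) (hLh 0 0)
    obtain ⟨q0, q1, e01⟩ := ext_lin2 (L 0 1) (hLh 0 1)
    obtain ⟨r0, r1, e10⟩ := ext_lin2 (L 1 0) (hLh 1 0)
    obtain ⟨t0, t1, e11⟩ := ext_lin2 (L 1 1) (hLh 1 1)
    refine ⟨![![p0, p1], ![q0, q1], ![r0, r1], ![t0, t1]], fun x y => ?_⟩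
    obtain ⟨j00, j01, j10, j11⟩ := eqs2_jac s l0 l1 a b c h0 h1 ![x, y]
    simp only [Matrix.cons_val_zero, Matrix.cons_val_one] at j10 j11
    have key : ∀ i j, eval ![x, y] ((jac s * L) i j) = eval ![x, y] ((cmat s * jac s) i j) := by
      intro i j; rw [hL]
    have f00 : eval ![x, y] (L 0 0) = p0 * x + p1 * y := by rw [e00]; simp
    have f01 : eval ![x, y] (L 0 1) = q0 * x + q1 * y := by rw [e01]; simp
    have f10 : eval ![x, y] (L 1 0) = r0 * x + r1 * y := by rw [e10]; simp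
    have f11 : eval ![x, y] (L 1 1) = t0 * x + t1 * y := by rw [e11]; simp
    have g0 : eval ![x, y] (s 0) = l0 * x + l1 * y := by rw [h0]; simp
    have g1 : eval ![x, y] (s 1) = a * x ^ 2 + b * (x * y) + c * y ^ 2 := by rw [h1]; simp
    have c00 : cmat s 0 0 = - s 0 := by simp [cmat]
    have c01 : cmat s 0 1 = 1 := by simp [cmat]
    have c10 : cmat s 1 0 = - s 1 := by simp [cmat]
    have c11 : cmat s 1 1 = 0 := by simp [cmat]
    have k00 := key 0 0
    have k01 := key 0 1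
    have k10 := key 1 0
    have k11 := key 1 1
    simp only [Matrix.mul_apply, Fin.sum_univ_two, map_add, map_mul, map_neg, map_one, map_zero,
      j00, j01, j10, j11, f00, f01, f10, f11, c00, c01, c10, c11, g0, g1] at k00 k01 k10 k11
    refine ⟨?_, ?_, ?_, ?_⟩
    · show l0 * (p0 * x + p1 * y) + l1 * (r0 * x + r1 * y) = _
      linarith
    · show l0 * (q0 * x + q1 * y) + l1 * (t0 * x + t1 * y) = _
      linarith
    · show (2 * a * x + b * y) * (p0 * x + p1 * y) + (b * x + 2 * c * y) * (r0 * x + r1 * y) = _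
      linarith
    · show (2 * a * x + b * y) * (q0 * x + q1 * y) + (b * x + 2 * c * y) * (t0 * x + t1 * y) = _
      linarith
  · by_contra hcon
    push Not at hcon
    apply hdet
    apply MvPolynomial.funext
    intro v
    obtain ⟨j00, j01, j10, j11⟩ := eqs2_jac s l0 l1 a b c h0 h1 v
    rw [Matrix.det_fin_two, map_sub, map_mul, map_mul, j00, j01, j10, j11, map_zero]
    have := hcon (v 0) (v 1)
    linarith

end Pool.Agent.Helper190.NJ2
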