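import Pool.Agent.Helper190.NJ2.Defs

set_option autoImplicit false

namespace Pool.Agent.Helper190.NJ2
open MvPolynomial Matrix


theorem ext_quad2 (f : MvPolynomial (Fin 2) ℝ) (h : f.IsHomogeneous 2) :
    ∃ a b c : ℝ, f = C a * X 0 ^ 2 + C b * (X 0 * X 1) + C c * X 1 ^ 2 := by
  have e1 : (X 0 ^ 2 : MvPolynomial (Fin 2) ℝ) = monomial (Finsupp.single 0 2) 1 := by
    rw [X_pow_eq_monomial]
  have e3 : (X 1 ^ 2 : MvPolynomial (Fin 2) ℝ) = monomial (Finsupp.single 1 2) 1 := by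
    rw [X_pow_eq_monomial]
  have e2 : (X 0 * X 1 : MvPolynomial (Fin 2) ℝ) = monomial (Finsupp.single 0 1 + Finsupp.single 1 1) 1 := by
    rw [X, X, monomial_mul, one_mul]
  refine ⟨coeff (Finsupp.single 0 2) f, coeff (Finsupp.single 0 1 + Finsupp.single 1 1) f,
    coeff (Finsupp.single 1 2) f, ?_⟩
  rw [e1, e2, e3]
  ext m
  rw [coeff_add, coeff_add, coeff_C_mul, coeff_C_mul, coeff_C_mul, coeff_monomial, coeff_monomial, coeff_monomial]
  have n12 : (Finsupp.single (0 : Fin 2) 2 : Fin 2 →₀ ℕ) ≠ Finsupp.single 0 1 + Finsupp.single 1 1 := by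
    intro h
    have := DFunLike.congr_fun h (0 : Fin 2)
    simp at this
  have n13 : (Finsupp.single (0 : Fin 2) 2 : Fin 2 →₀ ℕ) ≠ Finsupp.single 1 2 := by
    intro h
    have := DFunLike.congr_fun h (0 : Fin 2)
    simp at this
  have n23 : (Finsupp.single (0 : Fin 2) 1 + Finsupp.single 1 1 : Fin 2 →₀ ℕ) ≠ Finsupp.single 1 2 := by
    intro h
    have := DFunLike.congr_fun h (0 : Fin 2)
    simp at this
  by_cases h1 : Finsupp.single 0 2 = m
  · subst h1
    rw [if_pos rfl, if_neg n12.symm, if_neg n13.symm]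
    ring
  by_cases h2 : Finsupp.single 0 1 + Finsupp.single 1 1 = m
  · subst h2
    rw [if_pos rfl, if_neg n12, if_neg n23.symm]
    ring
  by_cases h3 : Finsupp.single 1 2 = m
  · subst h3
    rw [if_pos rfl, if_neg n13, if_neg n23]
    ring
  rw [if_neg h1, if_neg h2, if_neg h3]
  by_contra hc
  have hd : coeff m f ≠ 0 := by
    intro h0
    apply hc
    rw [h0]; ring
  have hw := h hd
  have hs : m 0 + m 1 = 2 := by
    rw [Finsupp.weight_apply, Finsupp.sum_fintype _ _ (by simp)] at hw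
    simpa [Fin.sum_univ_two] using hw
  have hcases : (m 0 = 2 ∧ m 1 = 0) ∨ (m 0 = 1 ∧ m 1 = 1) ∨ (m 0 = 0 ∧ m 1 = 2) := by omega
  rcases hcases with ⟨a0, a1⟩ | ⟨a0, a1⟩ | ⟨a0, a1⟩
  · apply h1
    ext i
    fin_cases i
    · simp [a0]
    · simp [a1]
  · apply h2
    ext i
    fin_cases i
    · simp [a0]
    · simp [a1]
  · apply h3
    ext i
    fin_cases i
    · simp [a0]
    · simp [a1]

end Pool.Agent.Helper190.NJ2
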