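import Pool.Agent.Helper190.NJ2.Defs

set_option autoImplicit false

namespace Pool.Agent.Helper190.NJ2
open MvPolynomial Matrix


theorem njt_pd (A : Matrix (Fin 2) (Fin 2) ℝ) (i j : Fin 2) :
    pderiv j (lf A i) = C (A i j) := by
  unfold lf
  rw [map_sum]
  simp only [Derivation.leibniz, pderiv_C, pderiv_X, smul_eq_mul, mul_zero, add_zero]
  fin_cases j <;> simp [Fin.sum_univ_two, Pi.single_apply]

theorem njt_hom (A : Matrix (Fin 2) (Fin 2) ℝ) (i : Fin 2) : (lf A i).IsHomogeneous 1 := by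
  unfold lf
  apply IsHomogeneous.sum
  intro j _
  have := (isHomogeneous_C (Fin 2) (A i j)).mul (isHomogeneous_X ℝ j)
  simpa using this

theorem njt_key (A : Matrix (Fin 2) (Fin 2) ℝ) (hA : A.det ≠ 0)
    (s : Fin 2 → MvPolynomial (Fin 2) ℝ) (F Lam : Matrix (Fin 2) (Fin 2) (MvPolynomial (Fin 2) ℝ))
    (hJ : jac s = F * A.map C) (hFL : F * Lam = cmat s * F)
    (hLam : ∀ i j, (Lam i j).IsHomogeneous 1) (hdet : F.det ≠ 0)
    (hs : ∀ k : Fin 2, (s k).IsHomogeneous ((k : ℕ) + 1)) : Adm' s := by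
  have hu : IsUnit A.det := isUnit_iff_ne_zero.mpr hA
  have h1 : (A.map C : Matrix (Fin 2) (Fin 2) (MvPolynomial (Fin 2) ℝ)) * (A⁻¹).map C = 1 := by
    rw [← Matrix.map_mul, Matrix.mul_nonsing_inv A hu]
    exact Matrix.map_one _ (map_zero _) (map_one _)
  refine ⟨?_, hs, (A⁻¹).map C * Lam * A.map C, ?_, ?_⟩
  · rw [hJ, Matrix.det_mul]
    refine mul_ne_zero hdet ?_
    have : (A.map C : Matrix (Fin 2) (Fin 2) (MvPolynomial (Fin 2) ℝ)).det = C A.det := by
      have := (RingHom.map_det (C : ℝ →+* MvPolynomial (Fin 2) ℝ) A).symm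
      simpa [RingHom.mapMatrix_apply] using this
    rw [this]
    exact fun h => hA (by simpa using h)
  · intro i j
    rw [Matrix.mul_apply]
    apply IsHomogeneous.sum
    intro k _
    rw [Matrix.mul_apply]
    have h2 : (∑ l, ((A⁻¹).map C : Matrix (Fin 2) (Fin 2) (MvPolynomial (Fin 2) ℝ)) i l * Lam l k).IsHomogeneous 1 := by
      apply IsHomogeneous.sum
      intro l _
      have := (isHomogeneous_C (Fin 2) (A⁻¹ i l)).mul (hLam l k)
      simpa using this
    have := h2.mul (isHomogeneous_C (Fin 2) (A k j))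
    simpa using this
  · calc jac s * ((A⁻¹).map C * Lam * A.map C)
        = F * (A.map C * (A⁻¹).map C) * Lam * A.map C := by
          rw [hJ]; simp only [Matrix.mul_assoc]
      _ = F * Lam * A.map C := by rw [h1, Matrix.mul_one]
      _ = cmat s * F * A.map C := by rw [hFL]
      _ = cmat s * jac s := by rw [hJ, Matrix.mul_assoc]

theorem njt_ne (A : Matrix (Fin 2) (Fin 2) ℝ) (hA : A.det ≠ 0) : lf A 1 ≠ 0 := by
  intro h
  apply hA
  have h0 := njt_pd A 1 0
  have h1 := njt_pd A 1 1
  rw [h] at h0 h1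
  rw [map_zero] at h0 h1
  have h0' : A 1 0 = 0 := C_injective (Fin 2) ℝ (by rw [← h0, map_zero])
  have h1' : A 1 1 = 0 := C_injective (Fin 2) ℝ (by rw [← h1, map_zero])
  rw [Matrix.det_fin_two, h0', h1']
  ring

theorem njt_ne' (A : Matrix (Fin 2) (Fin 2) ℝ) (hA : A.det ≠ 0) : lf A 0 - lf A 1 ≠ 0 := by
  intro h
  apply hA
  have h' : lf A 0 = lf A 1 := sub_eq_zero.mp h
  have h0 : C (A 0 0) = (C (A 1 0) : MvPolynomial (Fin 2) ℝ) := by
    rw [← njt_pd A 0 0, ← njt_pd A 1 0, h']
  have h1 : C (A 0 1) = (C (A 1 1) : MvPolynomial (Fin 2) ℝ) := by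
    rw [← njt_pd A 0 1, ← njt_pd A 1 1, h']
  have h0' := C_injective (Fin 2) ℝ h0
  have h1' := C_injective (Fin 2) ℝ h1
  rw [Matrix.det_fin_two, h0', h1']
  ring

theorem njt_two : (2 : MvPolynomial (Fin 2) ℝ) ≠ 0 := two_ne_zero

theorem fam_adm (A : Matrix (Fin 2) (Fin 2) ℝ) (hA : A.det ≠ 0)
    (s : Fin 2 → MvPolynomial (Fin 2) ℝ) (h : Fam2 (lf A 0) (lf A 1) s) : Adm' s := by
  have hf := njt_hom A 0
  have hg := njt_hom A 1
  have hff : (lf A 0 ^ 2).IsHomogeneous 2 := by simpa using hf.pow 2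
  have hgg : (lf A 1 ^ 2).IsHomogeneous 2 := by simpa using hg.pow 2
  have hC2 : (2 : MvPolynomial (Fin 2) ℝ) = C 2 := (map_ofNat C 2).symm
  have h2f : (2 * lf A 0).IsHomogeneous 1 := by
    rw [hC2]; simpa using (isHomogeneous_C (Fin 2) (2:ℝ)).mul hf
  have h2g : (2 * lf A 1).IsHomogeneous 1 := by
    rw [hC2]; simpa using (isHomogeneous_C (Fin 2) (2:ℝ)).mul hg
  have hhg : (C (1/2 : ℝ) * lf A 1).IsHomogeneous 1 := by
    simpa using (isHomogeneous_C (Fin 2) (1/2:ℝ)).mul hg
  have hhalf : (2 : MvPolynomial (Fin 2) ℝ) * C (1/2 : ℝ) = 1 := by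
    rw [hC2, ← C_mul]; norm_num
  have hz : (0 : MvPolynomial (Fin 2) ℝ).IsHomogeneous 1 := isHomogeneous_zero _ _ _
  rcases h with rfl | rfl | rfl | rfl
  · refine njt_key A hA _ !![1, 1; lf A 1, lf A 0] !![-lf A 0, 0; 0, -lf A 1] ?_ ?_ ?_ ?_ ?_
    · ext1 i j
      fin_cases i <;> fin_cases j <;>
        simp [jac, Matrix.mul_apply, Fin.sum_univ_two, njt_pd, Derivation.leibniz] <;> ring
    · ext1 i j
      fin_cases i <;> fin_cases j <;>
        simp [cmat, Matrix.mul_apply, Fin.sum_univ_two] <;> ring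
    · intro i j
      fin_cases i <;> fin_cases j <;> simp [hz, hf.neg, hg.neg]
    · rw [Matrix.det_fin_two_of]
      have := njt_ne' A hA
      simpa using this
    · intro k
      fin_cases k
      · simpa using hf.add hg
      · simpa using hf.mul hg
  · refine njt_key A hA _ !![2, 0; 2 * lf A 0, 2 * lf A 1] !![-lf A 0, lf A 1; -lf A 1, -lf A 0]
      ?_ ?_ ?_ ?_ ?_
    · ext1 i j
      fin_cases i <;> fin_cases j <;>
        simp [jac, Matrix.mul_apply, Fin.sum_univ_two, njt_pd, Derivation.leibniz, hC2, pow_two] <;>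
        (try simp only [← hC2]) <;> ring
    · ext1 i j
      fin_cases i <;> fin_cases j <;>
        simp [cmat, Matrix.mul_apply, Fin.sum_univ_two] <;> ring
    · intro i j
      fin_cases i <;> fin_cases j <;> simp [hg, hf.neg, hg.neg]
    · rw [Matrix.det_fin_two_of]
      have := njt_ne A hA
      simp [this]
    · intro k
      fin_cases k
      · simpa using h2f
      · simpa using hff.add hgg
  · refine njt_key A hA _ !![1, 0; 0, 2 * lf A 1] !![-lf A 0, 2 * lf A 1; -(C (1/2 : ℝ) * lf A 1), 0]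
      ?_ ?_ ?_ ?_ ?_
    · ext1 i j
      fin_cases i <;> fin_cases j <;>
        simp [jac, Matrix.mul_apply, Fin.sum_univ_two, njt_pd, Derivation.leibniz, pow_two] <;> ring
    · ext1 i j
      fin_cases i <;> fin_cases j
      · simp [cmat, Matrix.mul_apply, Fin.sum_univ_two]
      · simp [cmat, Matrix.mul_apply, Fin.sum_univ_two]
      · simp only [cmat, Matrix.mul_apply, Fin.sum_univ_two]
        simp only [Fin.mk_one, Fin.zero_eta, of_apply, cons_val', cons_val_zero, cons_val_one,
          Fin.isValue, cons_val_fin_one, Fin.val_zero, Fin.val_one, ↓reduceIte]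
        linear_combination (-(lf A 1)^2) * hhalf
      · simp [cmat, Matrix.mul_apply, Fin.sum_univ_two]
    · intro i j
      fin_cases i <;> fin_cases j
      · simpa using hf.neg
      · simpa using h2g
      · simpa using hhg.neg
      · simpa using hz
    · rw [Matrix.det_fin_two_of]
      have := njt_ne A hA
      simp [this]
    · intro k
      fin_cases k
      · simpa using hf
      · simpa using hgg
  · refine njt_key A hA _ !![1, 0; 0, -(2 * lf A 1)] !![-lf A 0, -(2 * lf A 1); -(C (1/2 : ℝ) * lf A 1), 0]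
      ?_ ?_ ?_ ?_ ?_
    · ext1 i j
      fin_cases i <;> fin_cases j <;>
        simp [jac, Matrix.mul_apply, Fin.sum_univ_two, njt_pd, Derivation.leibniz, pow_two] <;> ring
    · ext1 i j
      fin_cases i <;> fin_cases j
      · simp [cmat, Matrix.mul_apply, Fin.sum_univ_two]
      · simp [cmat, Matrix.mul_apply, Fin.sum_univ_two]
      · simp only [cmat, Matrix.mul_apply, Fin.sum_univ_two]
        simp only [Fin.mk_one, Fin.zero_eta, of_apply, cons_val', cons_val_zero, cons_val_one,
          Fin.isValue, cons_val_fin_one, Fin.val_zero, Fin.val_one, ↓reduceIte]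
        linear_combination ((lf A 1)^2) * hhalf
      · simp [cmat, Matrix.mul_apply, Fin.sum_univ_two]
    · intro i j
      fin_cases i <;> fin_cases j
      · simpa using hf.neg
      · simpa using h2g.neg
      · simpa using hhg.neg
      · simpa using hz
    · rw [Matrix.det_fin_two_of]
      have := njt_ne A hA
      simp [this]
    · intro k
      fin_cases k
      · simpa using hf
      · simpa using hgg.neg

end Pool.Agent.Helper190.NJ2
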