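import Pool.Agent.Helper190.NJ2.Defs

set_option autoImplicit false

namespace Pool.Agent.Helper190.NJ2
open MvPolynomial Matrix


theorem fam_of (l0 l1 a b c u v κ ε : ℝ) (hd : l0 * v - l1 * u ≠ 0)
    (hκ : κ = 0 ∨ κ = 1 / 4) (hε : ε = 1 ∨ ε = -1)
    (ha : a = κ * l0 ^ 2 + ε * u ^ 2) (hb : b = 2 * κ * l0 * l1 + 2 * ε * u * v)
    (hc : c = κ * l1 ^ 2 + ε * v ^ 2) :
    ∃ A : Matrix (Fin 2) (Fin 2) ℝ, A.det ≠ 0 ∧ Fam2 (lf A 0) (lf A 1)
      ![C l0 * X 0 + C l1 * X 1, C a * X 0 ^ 2 + C b * (X 0 * X 1) + C c * X 1 ^ 2] := by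
  subst ha hb hc
  rcases hκ with hκ | hκ <;> rcases hε with hε | hε <;> subst hκ hε
  · refine ⟨!![l0, l1; u, v], ?_, Or.inr (Or.inr (Or.inl ?_))⟩
    · rw [Matrix.det_fin_two_of]; exact hd
    · funext i
      fin_cases i
      · apply MvPolynomial.funext
        intro x
        simp [lf, Fin.sum_univ_two]
      · apply MvPolynomial.funext
        intro x
        simp [lf, Fin.sum_univ_two]
        ring
  · refine ⟨!![l0, l1; u, v], ?_, Or.inr (Or.inr (Or.inr ?_))⟩
    · rw [Matrix.det_fin_two_of]; exact hd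
    · funext i
      fin_cases i
      · apply MvPolynomial.funext
        intro x
        simp [lf, Fin.sum_univ_two]
      · apply MvPolynomial.funext
        intro x
        simp [lf, Fin.sum_univ_two]
        ring
  · refine ⟨!![l0 / 2, l1 / 2; u, v], ?_, Or.inr (Or.inl ?_)⟩
    · rw [Matrix.det_fin_two_of]
      intro h
      apply hd
      linarith
    · funext i
      fin_cases i
      · apply MvPolynomial.funext
        intro x
        simp [lf, Fin.sum_univ_two]
        ring
      · apply MvPolynomial.funext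
        intro x
        simp [lf, Fin.sum_univ_two]
        ring
  · refine ⟨!![l0 / 2 + u, l1 / 2 + v; l0 / 2 - u, l1 / 2 - v], ?_, Or.inl ?_⟩
    · rw [Matrix.det_fin_two_of]
      intro h
      apply hd
      linarith
    · funext i
      fin_cases i
      · apply MvPolynomial.funext
        intro x
        simp [lf, Fin.sum_univ_two]
        ring
      · apply MvPolynomial.funext
        intro x
        simp [lf, Fin.sum_univ_two]
        ring

end Pool.Agent.Helper190.NJ2
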