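import Pool.Agent.Helper190.NJ2.Defs

set_option autoImplicit false

namespace Pool.Agent.Helper190.NJ2
open MvPolynomial Matrix


theorem solve2_rk (a b c : ℝ) (h : b ^ 2 = 4 * a * c) :
    ∃ u v ε : ℝ, (ε = 1 ∨ ε = -1) ∧ a = ε * u ^ 2 ∧ b = 2 * ε * u * v ∧ c = ε * v ^ 2 := by
  rcases lt_trichotomy a 0 with ha | ha | ha
  · have hs : Real.sqrt (-a) ^ 2 = -a := Real.sq_sqrt (by linarith)
    have hp : 0 < Real.sqrt (-a) := Real.sqrt_pos.2 (by linarith)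
    refine ⟨Real.sqrt (-a), -b / (2 * Real.sqrt (-a)), -1, Or.inr rfl, by linarith, ?_, ?_⟩
    · field_simp
    · rw [div_pow, mul_pow, hs]
      have ha' : a ≠ 0 := ha.ne
      field_simp
      linarith
  · subst ha
    have hb : b = 0 := by
      have : b ^ 2 = 0 := by rw [h]; ring
      exact pow_eq_zero_iff (two_ne_zero) |>.1 this
    subst hb
    rcases le_total 0 c with hc | hc
    · exact ⟨0, Real.sqrt c, 1, Or.inl rfl, by ring, by ring, by rw [Real.sq_sqrt hc]; ring⟩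
    · exact ⟨0, Real.sqrt (-c), -1, Or.inr rfl, by ring, by ring, by
        rw [Real.sq_sqrt (by linarith)]; ring⟩
  · have hs : Real.sqrt a ^ 2 = a := Real.sq_sqrt ha.le
    have hp : 0 < Real.sqrt a := Real.sqrt_pos.2 ha
    refine ⟨Real.sqrt a, b / (2 * Real.sqrt a), 1, Or.inl rfl, by linarith, ?_, ?_⟩
    · field_simp
    · rw [div_pow, mul_pow, hs]
      have ha' : a ≠ 0 := ha.ne'
      field_simp
      linarith

theorem solve2 (l0 l1 a b c : ℝ)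
    (h : ∃ m : Fin 4 → Fin 2 → ℝ, ∀ x y : ℝ,
      l0 * (m 0 0 * x + m 0 1 * y) + l1 * (m 2 0 * x + m 2 1 * y) =
        2 * a * x + b * y - (l0 * x + l1 * y) * l0 ∧
      l0 * (m 1 0 * x + m 1 1 * y) + l1 * (m 3 0 * x + m 3 1 * y) =
        b * x + 2 * c * y - (l0 * x + l1 * y) * l1 ∧
      (2 * a * x + b * y) * (m 0 0 * x + m 0 1 * y) + (b * x + 2 * c * y) * (m 2 0 * x + m 2 1 * y) =
        - (a * x ^ 2 + b * (x * y) + c * y ^ 2) * l0 ∧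
      (2 * a * x + b * y) * (m 1 0 * x + m 1 1 * y) + (b * x + 2 * c * y) * (m 3 0 * x + m 3 1 * y) =
        - (a * x ^ 2 + b * (x * y) + c * y ^ 2) * l1)
    (hn : ∃ x y : ℝ, l0 * (b * x + 2 * c * y) - l1 * (2 * a * x + b * y) ≠ 0) :
    ∃ u v : ℝ, l0 * v - l1 * u ≠ 0 ∧ ∃ κ ε : ℝ, (κ = 0 ∨ κ = 1 / 4) ∧ (ε = 1 ∨ ε = -1) ∧
      a = κ * l0 ^ 2 + ε * u ^ 2 ∧ b = 2 * κ * l0 * l1 + 2 * ε * u * v ∧
      c = κ * l1 ^ 2 + ε * v ^ 2 := by
  obtain ⟨m, hm⟩ := h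
  obtain ⟨e1, e2, e3, e4⟩ := hm (2 * c * l0 - b * l1) (2 * a * l1 - b * l0)
  obtain ⟨x, y, hxy⟩ := hn
  set Δ : ℝ := 4 * a * c - b ^ 2 with hΔ
  set q : ℝ := a * l1 ^ 2 - b * (l0 * l1) + c * l0 ^ 2 with hq
  have k0 : l0 * (Δ * (Δ - q)) = 0 := by
    rw [hΔ, hq]
    linear_combination (-(4 * a * c - b ^ 2)) * e1 + e3
  have k1 : l1 * (Δ * (Δ - q)) = 0 := by
    rw [hΔ, hq]
    linear_combination (-(4 * a * c - b ^ 2)) * e2 + e4
  have hl : l0 ≠ 0 ∨ l1 ≠ 0 := by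
    by_contra hcon
    push Not at hcon
    apply hxy
    rw [hcon.1, hcon.2]
    ring
  have k2 : Δ * (Δ - q) = 0 := by
    rcases hl with hl | hl
    · exact (mul_eq_zero.1 k0).resolve_left hl
    · exact (mul_eq_zero.1 k1).resolve_left hl
  have hq0 : q ≠ 0 := by
    intro hq0
    rw [hq0, sub_zero] at k2
    have hΔ0 : Δ = 0 := by
      rcases mul_eq_zero.1 k2 with h | h <;> exact h
    have s0 : (l0 * b - 2 * a * l1) ^ 2 = 0 := by
      have : (l0 * b - 2 * a * l1) ^ 2 = -(l0 ^ 2 * Δ) + 4 * a * q := by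
        rw [hΔ, hq]; ring
      rw [this, hΔ0, hq0]; ring
    have s1 : (2 * c * l0 - b * l1) ^ 2 = 0 := by
      have : (2 * c * l0 - b * l1) ^ 2 = -(l1 ^ 2 * Δ) + 4 * c * q := by
        rw [hΔ, hq]; ring
      rw [this, hΔ0, hq0]; ring
    have t0 := pow_eq_zero_iff (two_ne_zero) |>.1 s0
    have t1 := pow_eq_zero_iff (two_ne_zero) |>.1 s1
    apply hxy
    linear_combination x * t0 + y * t1
  have fin : ∀ κ : ℝ, (κ = 0 ∨ κ = 1 / 4) →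
      (b - 2 * κ * l0 * l1) ^ 2 = 4 * (a - κ * l0 ^ 2) * (c - κ * l1 ^ 2) →
      ∃ u v : ℝ, l0 * v - l1 * u ≠ 0 ∧ ∃ κ ε : ℝ, (κ = 0 ∨ κ = 1 / 4) ∧ (ε = 1 ∨ ε = -1) ∧
      a = κ * l0 ^ 2 + ε * u ^ 2 ∧ b = 2 * κ * l0 * l1 + 2 * ε * u * v ∧
      c = κ * l1 ^ 2 + ε * v ^ 2 := by
    intro κ hκ hk
    obtain ⟨u, v, ε, hε, h1, h2, h3⟩ := solve2_rk _ _ _ hk
    refine ⟨u, v, ?_, κ, ε, hκ, hε, by linarith, by linarith, by linarith⟩
    intro hz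
    apply hq0
    rw [hq]
    have h1' : a = κ * l0 ^ 2 + ε * u ^ 2 := by linarith
    have h2' : b = 2 * κ * l0 * l1 + 2 * ε * u * v := by linarith
    have h3' : c = κ * l1 ^ 2 + ε * v ^ 2 := by linarith
    rw [h1', h2', h3']
    linear_combination ε * (l0 * v - l1 * u) * hz
  rcases mul_eq_zero.1 k2 with h | h
  · refine fin 0 (Or.inl rfl) ?_
    rw [hΔ] at h
    linear_combination (-1 : ℝ) * h
  · refine fin (1 / 4) (Or.inr rfl) ?_
    rw [hΔ, hq] at h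
    linear_combination (-1 : ℝ) * h

end Pool.Agent.Helper190.NJ2
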