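import Pool.Agent.Helper190.NJ2.P_adm_from2
import Pool.Agent.Helper190.NJ2.P_adm_to2
import Pool.Agent.Helper190.NJ2.P_alg_of_det
import Pool.Agent.Helper190.NJ2.P_class1
import Pool.Agent.Helper190.NJ2.P_det_of_alg
import Pool.Agent.Helper190.NJ2.P_eqs2
import Pool.Agent.Helper190.NJ2.P_ext_lin2
import Pool.Agent.Helper190.NJ2.P_ext_quad2
import Pool.Agent.Helper190.NJ2.P_fam_adm
import Pool.Agent.Helper190.NJ2.P_fam_of
import Pool.Agent.Helper190.NJ2.P_hcomp_mul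
import Pool.Agent.Helper190.NJ2.P_solve2

set_option autoImplicit false

namespace Pool.Agent.Helper190.NJ2

open MvPolynomial Matrix

theorem class2 (s : Fin 2 → MvPolynomial (Fin 2) ℝ) :
    Admissible s ↔ ∃ A : Matrix (Fin 2) (Fin 2) ℝ, A.det ≠ 0 ∧ Fam2 (lf A 0) (lf A 1) s := by
  constructor
  · intro h
    have h' := adm_to2 s h
    obtain ⟨l0, l1, h0⟩ := ext_lin2 (s 0) (h'.2.1 0)
    obtain ⟨a, b, c, h1⟩ := ext_quad2 (s 1) (h'.2.1 1)
    obtain ⟨hm, hn⟩ := eqs2 s h' l0 l1 a b c h0 h1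
    obtain ⟨u, v, hd, κ, ε, hκ, hε, ha, hb, hc⟩ := solve2 l0 l1 a b c hm hn
    have hf := fam_of l0 l1 a b c u v κ ε hd hκ hε ha hb hc
    have hs : s = ![C l0 * X 0 + C l1 * X 1,
        C a * X 0 ^ 2 + C b * (X 0 * X 1) + C c * X 1 ^ 2] := by
      funext i
      fin_cases i
      · exact h0
      · exact h1
    rw [hs]
    exact hf
  · rintro ⟨A, hA, h⟩
    exact adm_from2 s (fam_adm A hA s h)

end Pool.Agent.Helper190.NJ2
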